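import Pool.Agent.W711.CR.Stm

/-!
# MP_434e52_an, part CR-GOOD: the two groups of characters on `Pol E` form a `GoodPair`
-/

set_option autoImplicit false

namespace Pool.Agent.W266.CR

open Pool.Agent.W711.CR

/-! ### The character of `ℤ/4` -/

theorem chi_zero : chi 0 = 1 := by simp [chi]

theorem chi_add (a b : ZMod 4) : chi (a + b) = chi a * chi b := by
  unfold chi
  rw [ZMod.val_add, ← Complex.I_pow_eq_pow_mod, pow_add]

theorem val_cases (a : ZMod 4) : a = 0 ∨ a = 1 ∨ a = 2 ∨ a = 3 := by
  revert a; decide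

theorem chi_one : chi 1 = Complex.I := by
  have : (1 : ZMod 4).val = 1 := rfl
  simp [chi, this]

theorem chi_two : chi 2 = -1 := by
  have : (2 : ZMod 4).val = 2 := rfl
  simp [chi, this]

theorem chi_three : chi 3 = -Complex.I := by
  have : (3 : ZMod 4).val = 3 := rfl
  simp [chi, this]

theorem chi_ne_one (a : ZMod 4) (ha : a ≠ 0) : chi a ≠ 1 := by
  rcases val_cases a with h | h | h | h
  · exact absurd h ha
  · rw [h, chi_one]
    intro h
    have := congrArg Complex.re h
    norm_num at this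
  · rw [h, chi_two]
    norm_num
  · rw [h, chi_three]
    intro h
    have := congrArg Complex.re h
    norm_num at this

theorem chi_eq (x : ZMod 4) :
    chi x = ((1 + Complex.I) / 2) * chi (bet x) + ((1 - Complex.I) / 2) * (chi (2 * x) * chi (bet x)) := by
  have h22 : (2 * 2 : ZMod 4) = 0 := by decide
  have h23 : (2 * 3 : ZMod 4) = 2 := by decide
  have b0 : bet 0 = 0 := by decide
  have b1 : bet 1 = 0 := by decide
  have b2 : bet 2 = 2 := by decide
  have b3 : bet 3 = 2 := by decide
  rcases val_cases x with h | h | h | h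
  · rw [h, mul_zero, b0, chi_zero]; ring
  · rw [h, mul_one, b1, chi_zero, chi_one, chi_two]; ring
  · rw [h, h22, b2, chi_zero, chi_two]; ring
  · rw [h, h23, b3, chi_two, chi_three]; ring

theorem chi_bet (x : ZMod 4) :
    chi (bet x) = ((1 - Complex.I) / 2) * chi x
      + ((1 + Complex.I) / 2) * (chi x * (chi x * chi x)) := by
  have b0 : bet 0 = 0 := by decide
  have b1 : bet 1 = 0 := by decide
  have b2 : bet 2 = 2 := by decide
  have b3 : bet 3 = 2 := by decide
  have hI : Complex.I ^ 2 = -1 := Complex.I_sq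
  rcases val_cases x with h | h | h | h
  · rw [h, b0, chi_zero]; ring
  · rw [h, b1, chi_zero, chi_one]
    linear_combination (-(1 / 2) * (Complex.I ^ 2 + Complex.I - 2)) * hI
  · rw [h, b2, chi_two]; ring
  · rw [h, b3, chi_two, chi_three]
    linear_combination ((1 / 2) * (Complex.I ^ 2 + Complex.I - 2)) * hI

/-! ### The functions `cf a` -/

theorem cf_add {X : Type} (a b : Fn X) : cf (a + b) = cf a * cf b := by
  funext x
  simp only [cf, Pi.add_apply, Pi.mul_apply]
  exact chi_add _ _

theorem cf_zero {X : Type} : cf (0 : Fn X) = 1 := by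
  funext x
  simp only [cf, Pi.zero_apply, Pi.one_apply]
  exact chi_zero

theorem neg_eq {X : Type} (a : Fn X) : -a = a + (a + a) := by
  funext x
  have h : ∀ y : ZMod 4, -y = y + (y + y) := by decide
  exact h (a x)

theorem mul_mem_span {X : Type} (A : AddSubgroup (Fn X)) (u v : X → ℂ)
    (hu : u ∈ Submodule.span ℂ (cf '' (A : Set (Fn X))))
    (hv : v ∈ Submodule.span ℂ (cf '' (A : Set (Fn X)))) :
    u * v ∈ Submodule.span ℂ (cf '' (A : Set (Fn X))) := by
  induction hu using Submodule.span_induction with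
  | mem u hu =>
    obtain ⟨a, ha, rfl⟩ := hu
    induction hv using Submodule.span_induction with
    | mem v hv =>
      obtain ⟨b, hb, rfl⟩ := hv
      rw [← cf_add]
      exact Submodule.subset_span ⟨a + b, A.add_mem ha hb, rfl⟩
    | zero => rw [mul_zero]; exact Submodule.zero_mem _
    | add v w _ _ h1 h2 => rw [mul_add]; exact Submodule.add_mem _ h1 h2
    | smul c v _ h1 => rw [mul_smul_comm]; exact Submodule.smul_mem _ _ h1
  | zero => rw [zero_mul]; exact Submodule.zero_mem _
  | add v w _ _ h1 h2 => rw [add_mul]; exact Submodule.add_mem _ h1 h2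
  | smul c v _ h1 => rw [smul_mul_assoc]; exact Submodule.smul_mem _ _ h1

/-- `cf` of a closure stays in a span closed under products -/
theorem closure_mem_span {X : Type} (A : AddSubgroup (Fn X)) (T : Set (Fn X))
    (hT : ∀ w ∈ T, cf w ∈ Submodule.span ℂ (cf '' (A : Set (Fn X)))) (w : Fn X)
    (hw : w ∈ AddSubgroup.closure T) : cf w ∈ Submodule.span ℂ (cf '' (A : Set (Fn X))) := by
  induction hw using AddSubgroup.closure_induction with
  | mem w hw => exact hT w hw
  | zero => exact Submodule.subset_span ⟨0, A.zero_mem, rfl⟩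
  | add v w _ _ h1 h2 => rw [cf_add]; exact mul_mem_span A _ _ h1 h2
  | neg w _ h1 =>
    rw [neg_eq, cf_add, cf_add]
    exact mul_mem_span A _ _ h1 (mul_mem_span A _ _ h1 h1)

theorem span_eq' {E : Type} [AddCommGroup E] (S : Set E) :
    Submodule.span ℂ (cf '' (Wsub S : Set (Fn (Pol E)))) =
      Submodule.span ℂ (cf '' (Asub S : Set (Fn (Pol E)))) := by
  apply le_antisymm
  · rw [Submodule.span_le]
    rintro _ ⟨w, hw, rfl⟩
    refine closure_mem_span (Asub S) _ ?_ w hw
    rintro _ ⟨v, hv, rfl⟩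
    have h2 : (2 • ev v : Fn (Pol E)) ∈ Asub S := AddSubgroup.subset_closure ⟨v, hv, Or.inl rfl⟩
    have hb : (fun f => bet (f.1 v) : Fn (Pol E)) ∈ Asub S :=
      AddSubgroup.subset_closure ⟨v, hv, Or.inr rfl⟩
    have key : cf (ev v : Fn (Pol E)) = ((1 + Complex.I) / 2) • cf (fun f : Pol E => bet (f.1 v))
        + ((1 - Complex.I) / 2) • cf (2 • ev v + fun f : Pol E => bet (f.1 v)) := by
      funext f
      have h := chi_eq (f.1 v)
      simp only [Pi.add_apply, Pi.smul_apply, cf, smul_eq_mul, ev, nsmul_eq_mul, Nat.cast_ofNat,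
        chi_add]
      exact h
    rw [key]
    exact Submodule.add_mem _ (Submodule.smul_mem _ _ (Submodule.subset_span ⟨_, hb, rfl⟩))
      (Submodule.smul_mem _ _ (Submodule.subset_span ⟨_, (Asub S).add_mem h2 hb, rfl⟩))
  · rw [Submodule.span_le]
    rintro _ ⟨w, hw, rfl⟩
    refine closure_mem_span (Wsub S) _ ?_ w hw
    have h1 : ∀ v ∈ S, (ev v : Fn (Pol E)) ∈ Wsub S := fun v hv =>
      AddSubgroup.subset_closure ⟨v, hv, rfl⟩
    rintro _ ⟨v, hv, rfl | rfl⟩
    · exact Submodule.subset_span ⟨_, (Wsub S).nsmul_mem (h1 v hv) 2, rfl⟩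
    · have key : cf (fun f : Pol E => bet (f.1 v)) = ((1 - Complex.I) / 2) • cf (ev v : Fn (Pol E))
          + ((1 + Complex.I) / 2) • cf (ev v + (ev v + ev v) : Fn (Pol E)) := by
        funext f
        have h := chi_bet (f.1 v)
        simp only [Pi.add_apply, Pi.smul_apply, cf, smul_eq_mul, ev, chi_add]
        exact h
      rw [key]
      have h3 := (Wsub S).add_mem (h1 v hv) ((Wsub S).add_mem (h1 v hv) (h1 v hv))
      exact Submodule.add_mem _ (Submodule.smul_mem _ _ (Submodule.subset_span ⟨_, h1 v hv, rfl⟩))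
        (Submodule.smul_mem _ _ (Submodule.subset_span ⟨_, h3, rfl⟩))

/-! ### The second group law on `Pol E` -/

section
variable {E : Type} [AddCommGroup E]

theorem two_add (hE : ∀ v : E, v + v = 0) (f : Pol E) (v w : E) : 2 * f.1 (v + w) = 2 * f.1 v + 2 * f.1 w := by
  have h := f.2.2 0 v v w
  have h0 := f.2.1
  rw [zero_add, hE v, zero_add, h0] at h
  linear_combination -h

/-- the map `2 f g` -/
def dmul (hE : ∀ v : E, v + v = 0) (f g : Pol E) : Pol E := ⟨fun v => 2 * f.1 v * g.1 v, by
  refine ⟨by simp [f.2.1], fun x a b c => ?_⟩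
  have hf := two_add hE f
  have hg := two_add hE g
  have key : ∀ (u : E) (p q : ZMod 4), 2 * f.1 u = 2 * p → 2 * g.1 u = 2 * q →
      2 * f.1 u * g.1 u = 2 * p * q := by
    intro u p q hp hq
    linear_combination g.1 u * hp + p * hq
  have hf1 : ∀ u a, 2 * f.1 (u + a) = 2 * (f.1 u + f.1 a) := fun u a => by rw [hf, mul_add]
  have hg1 : ∀ u a, 2 * g.1 (u + a) = 2 * (g.1 u + g.1 a) := fun u a => by rw [hg, mul_add]
  have hf2 : ∀ u a b, 2 * f.1 (u + a + b) = 2 * (f.1 u + f.1 a + f.1 b) := fun u a b => by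
    rw [hf, hf]; ring
  have hg2 : ∀ u a b, 2 * g.1 (u + a + b) = 2 * (g.1 u + g.1 a + g.1 b) := fun u a b => by
    rw [hg, hg]; ring
  have hf3 : 2 * f.1 (x + a + b + c) = 2 * (f.1 x + f.1 a + f.1 b + f.1 c) := by
    rw [hf, hf, hf]; ring
  have hg3 : 2 * g.1 (x + a + b + c) = 2 * (g.1 x + g.1 a + g.1 b + g.1 c) := by
    rw [hg, hg, hg]; ring
  beta_reduce
  rw [key _ _ _ hf3 hg3, key _ _ _ (hf1 x a) (hg1 x a), key _ _ _ (hf1 x b) (hg1 x b),
    key _ _ _ (hf1 x c) (hg1 x c), key _ _ _ (hf2 x a b) (hg2 x a b),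
    key _ _ _ (hf2 x a c) (hg2 x a c), key _ _ _ (hf2 x b c) (hg2 x b c)]
  ring⟩

theorem dmul_apply (hE : ∀ v : E, v + v = 0) (f g : Pol E) (v : E) : (dmul hE f g).1 v = 2 * f.1 v * g.1 v := rfl

/-- the second group law `f + g + 2 f g` -/
def op (hE : ∀ v : E, v + v = 0) (f g : Pol E) : Pol E := f + g + dmul hE f g

theorem op_apply (hE : ∀ v : E, v + v = 0) (f g : Pol E) (v : E) :
    (op hE f g).1 v = f.1 v + g.1 v + 2 * f.1 v * g.1 v := rfl

theorem op_assoc (hE : ∀ v : E, v + v = 0) (f g h : Pol E) : op hE (op hE f g) h = op hE f (op hE g h) := by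
  apply Subtype.ext
  funext v
  rw [op_apply, op_apply, op_apply, op_apply]
  ring

theorem zero_op (hE : ∀ v : E, v + v = 0) (f : Pol E) : op hE 0 f = f := by
  apply Subtype.ext
  funext v
  rw [op_apply]
  have : (0 : Pol E).1 v = 0 := rfl
  rw [this]
  ring

theorem op_zero (hE : ∀ v : E, v + v = 0) (f : Pol E) : op hE f 0 = f := by
  apply Subtype.ext
  funext v
  rw [op_apply]
  have : (0 : Pol E).1 v = 0 := rfl
  rw [this]
  ring

/-- `Pol E` with the second group law -/
abbrev polMonoid (hE : ∀ v : E, v + v = 0) : Monoid (Pol E) where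
  mul := op hE
  mul_assoc := op_assoc hE
  one := 0
  one_mul := zero_op hE
  mul_one := op_zero hE

theorem add_eq_op (hE : ∀ v : E, v + v = 0) (f g : Pol E) : f + g = op hE (op hE f g) (dmul hE f g) := by
  apply Subtype.ext
  funext v
  rw [op_apply, op_apply, dmul_apply]
  have h : ∀ a b : ZMod 4, a + b = a + b + 2 * a * b + 2 * a * b
      + 2 * (a + b + 2 * a * b) * (2 * a * b) := by decide
  exact h _ _

theorem A_op (hE : ∀ v : E, v + v = 0) (S : Set E) (a : Fn (Pol E)) (ha : a ∈ Asub S) (f g : Pol E) :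
    a (op hE f g) = a f + a g := by
  induction ha using AddSubgroup.closure_induction with
  | mem a ha =>
    obtain ⟨v, _, rfl | rfl⟩ := ha
    · have h : ∀ a b : ZMod 4, 2 • (a + b + 2 * a * b) = 2 • a + 2 • b := by decide
      exact h (f.1 v) (g.1 v)
    · have h : ∀ a b : ZMod 4, bet (a + b + 2 * a * b) = bet a + bet b := by decide
      exact h (f.1 v) (g.1 v)
  | zero => simp
  | add a b _ _ h1 h2 => rw [Pi.add_apply, Pi.add_apply, Pi.add_apply, h1, h2]; ring
  | neg a _ h1 => rw [Pi.neg_apply, Pi.neg_apply, Pi.neg_apply, h1]; ring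

theorem W_add (S : Set E) (a : Fn (Pol E)) (ha : a ∈ Wsub S) (f g : Pol E) :
    a (f + g) = a f + a g := by
  induction ha using AddSubgroup.closure_induction with
  | mem a ha =>
    obtain ⟨v, _, rfl⟩ := ha
    rfl
  | zero => simp
  | add a b _ _ h1 h2 => rw [Pi.add_apply, Pi.add_apply, Pi.add_apply, h1, h2]; ring
  | neg a _ h1 => rw [Pi.neg_apply, Pi.neg_apply, Pi.neg_apply, h1]; ring

theorem A_zero (hE : ∀ v : E, v + v = 0) (S : Set E) (a : Fn (Pol E)) (ha : a ∈ Asub S) : a 0 = 0 := by
  have h := A_op hE S a ha 0 0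
  rw [op_zero] at h
  linear_combination -h

/-- the function `f ↦ a(2 f g)` -/
def Dg (hE : ∀ v : E, v + v = 0) (g : Pol E) (a : Fn (Pol E)) : Fn (Pol E) := fun f => a (dmul hE f g)

theorem Dg_mem (hE : ∀ v : E, v + v = 0) (S : Set E) (g : Pol E) (a : Fn (Pol E)) (ha : a ∈ Asub S) :
    Dg hE g a ∈ Asub S := by
  induction ha using AddSubgroup.closure_induction with
  | mem a ha =>
    obtain ⟨v, hv, rfl | rfl⟩ := ha
    · have : Dg hE g (2 • ev v) = 0 := by
        funext f
        have h : ∀ a b : ZMod 4, 2 • (2 * a * b) = 0 := by decide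
        exact h (f.1 v) (g.1 v)
      rw [this]
      exact (Asub S).zero_mem
    · have : Dg hE g (fun f => bet (f.1 v)) = (g.1 v).val • (2 • ev v) := by
        funext f
        have h : ∀ a b : ZMod 4, bet (2 * a * b) = b.val • (2 • a) := by decide
        exact h (f.1 v) (g.1 v)
      rw [this]
      exact (Asub S).nsmul_mem (AddSubgroup.subset_closure ⟨v, hv, Or.inl rfl⟩) _
  | zero => exact (Asub S).zero_mem
  | add a b _ _ h1 h2 => exact (Asub S).add_mem h1 h2
  | neg a _ h1 => exact (Asub S).neg_mem h1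

theorem A_add (hE : ∀ v : E, v + v = 0) (S : Set E) (a : Fn (Pol E)) (ha : a ∈ Asub S) (f g : Pol E) :
    a (f + g) = a f + a g + Dg hE g a f := by
  rw [add_eq_op hE f g, A_op hE S a ha, A_op hE S a ha]
  rfl

theorem Dg_inj (hE : ∀ v : E, v + v = 0) (S : Set E) (g : Pol E) (a : Fn (Pol E)) (ha : a ∈ Asub S)
    (h : a + Dg hE g a = 0) : a = 0 := by
  have h1 : Dg hE g a = 0 := by
    funext f
    have h2 := congrFun h (dmul hE f g)
    have h3 : dmul hE (dmul hE f g) g = 0 := by
      apply Subtype.ext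
      funext v
      rw [dmul_apply, dmul_apply]
      have h : ∀ a b : ZMod 4, 2 * (2 * a * b) * b = 0 := by decide
      exact h _ _
    have h4 : Dg hE g a (dmul hE f g) = 0 := by
      change a (dmul hE (dmul hE f g) g) = 0
      rw [h3]
      exact A_zero hE S a ha
    rw [Pi.add_apply, h4, add_zero] at h2
    exact h2
  rwa [h1, add_zero] at h

theorem cf_inj {X : Type} : Function.Injective (cf : Fn X → X → ℂ) := by
  intro a b h
  funext x
  have h1 := congrFun h x
  have h2 : chi (a x - b x) = 1 := by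
    have h3 : chi (a x - b x) * chi (b x) = chi (b x) := by
      rw [← chi_add, sub_add_cancel]
      exact h1
    have h4 : chi (b x) ≠ 0 := by
      unfold chi
      exact pow_ne_zero _ Complex.I_ne_zero
    exact mul_right_cancel₀ h4 (by rw [h3, one_mul])
  by_contra hne
  exact chi_ne_one _ (sub_ne_zero.mpr hne) h2

theorem exists_tau (hE : ∀ v : E, v + v = 0) (S : Set E) : ∃ τ : (Pol E → ℂ) →ₗ[ℂ] ℂ,
    ∀ a ∈ Asub S, (a = 0 → τ (cf a) = 1) ∧ (a ≠ 0 → τ (cf a) = 0) := by
  let _ : Monoid (Pol E) := polMonoid hE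
  have hli := linearIndependent_monoidHom (Pol E) ℂ
  let φ : Asub S → (Pol E →* ℂ) := fun a =>
    { toFun := cf a.1
      map_one' := by
        change chi (a.1 0) = 1
        rw [A_zero hE S a.1 a.2]
        exact chi_zero
      map_mul' := by
        intro f g
        change chi (a.1 (op hE f g)) = chi (a.1 f) * chi (a.1 g)
        rw [A_op hE S a.1 a.2, chi_add] }
  have hφ : Function.Injective φ := by
    intro a b h
    apply Subtype.ext
    apply cf_inj
    funext x
    exact DFunLike.congr_fun h x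
  have hli2 : LinearIndependent ℂ (fun a : Asub S => (cf a.1 : Pol E → ℂ)) := hli.comp φ hφ
  classical
  let b := Module.Basis.span hli2
  let t0 : Submodule.span ℂ (Set.range (fun a : Asub S => (cf a.1 : Pol E → ℂ))) →ₗ[ℂ] ℂ :=
    b.coord 0
  obtain ⟨τ, hτ⟩ := LinearMap.exists_extend t0
  refine ⟨τ, fun a ha => ?_⟩
  have key : τ (cf a) = b.coord 0 (b ⟨a, ha⟩) := by
    have h1 : ((b ⟨a, ha⟩ : Submodule.span ℂ _) : Pol E → ℂ) = cf a := by
      rw [Module.Basis.span_apply]
    rw [← h1]
    have := LinearMap.congr_fun hτ (b ⟨a, ha⟩)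
    exact this
  rw [key, Module.Basis.coord_apply, Module.Basis.repr_self]
  constructor
  · intro h
    have : (⟨a, ha⟩ : Asub S) = 0 := Subtype.ext h
    rw [this, Finsupp.single_eq_same]
  · intro h
    have : (⟨a, ha⟩ : Asub S) ≠ 0 := fun h' => h (congrArg Subtype.val h')
    rw [Finsupp.single_eq_of_ne]
    exact this.symm

end

theorem good : P_good := by
  intro E _ hE S
  refine ⟨span_eq' S, ?_⟩
  obtain ⟨τ, hτ⟩ := exists_tau hE S
  refine ⟨τ, ?_, hτ⟩
  -- invariance under translations on the span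
  have hinv : ∀ g : Pol E, ∀ u ∈ Submodule.span ℂ (cf '' (Asub S : Set (Fn (Pol E)))),
      τ (fun f => u (f + g)) = τ u := by
    intro g u hu
    induction hu using Submodule.span_induction with
    | mem u hu =>
      obtain ⟨a, ha, rfl⟩ := hu
      have h1 : (fun f => cf a (f + g)) = chi (a g) • cf (a + Dg hE g a) := by
        funext f
        change chi (a (f + g)) = chi (a g) * chi (a f + Dg hE g a f)
        rw [A_add hE S a ha, ← chi_add]
        congr 1
        ring
      rw [h1, map_smul, smul_eq_mul]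
      by_cases h0 : a = 0
      · subst h0
        have h2 : (0 : Fn (Pol E)) + Dg hE g 0 = 0 := by
          funext f
          simp [Dg]
        rw [h2, Pi.zero_apply, chi_zero, one_mul]
      · have h2 : a + Dg hE g a ≠ 0 := fun h => h0 (Dg_inj hE S g a ha h)
        rw [(hτ _ ((Asub S).add_mem ha (Dg_mem hE S g a ha))).2 h2, (hτ a ha).2 h0, mul_zero]
    | zero =>
      congr 1
    | add v w _ _ h1 h2 =>
      have : (fun f => (v + w) (f + g)) = (fun f => v (f + g)) + (fun f => w (f + g)) := rfl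
      rw [this, map_add, map_add, h1, h2]
    | smul c v _ h1 =>
      have : (fun f => (c • v) (f + g)) = c • (fun f => v (f + g)) := rfl
      rw [this, map_smul, map_smul, h1]
  intro w hw
  constructor
  · intro h
    subst h
    exact (hτ 0 (Asub S).zero_mem).1 rfl
  · intro h
    obtain ⟨g, hg⟩ : ∃ g, w g ≠ 0 := by
      by_contra hcon
      push Not at hcon
      exact h (funext hcon)
    have h1 : cf w ∈ Submodule.span ℂ (cf '' (Asub S : Set (Fn (Pol E)))) := by
      rw [← span_eq' S]
      exact Submodule.subset_span ⟨w, hw, rfl⟩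
    have h2 := hinv g _ h1
    have h3 : (fun f => cf w (f + g)) = chi (w g) • cf w := by
      funext f
      change chi (w (f + g)) = chi (w g) * chi (w f)
      rw [W_add S w hw, ← chi_add]
      congr 1
      ring
    rw [h3, map_smul, smul_eq_mul] at h2
    have h4 : (chi (w g) - 1) * τ (cf w) = 0 := by linear_combination h2
    rcases mul_eq_zero.mp h4 with h5 | h5
    · exact absurd (sub_eq_zero.mp h5) (chi_ne_one _ hg)
    · exact h5

end Pool.Agent.W266.CR
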